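import Pool.Agent.E8helper17.WhitMain

/-!
# The Whitman number of the dual of the partition lattice `Π₄`

`Setoid A` is the lattice of all equivalence relations (partitions) of `A`, ordered by refinement
(`r ≤ s` iff `r x y → s x y`; the meet is the common refinement and the join is the finest common
coarsening). So `Setoid (Fin 4)` is `Π₄` and `(Setoid (Fin 4))ᵒᵈ` is its order dual `L₄*`.

We show that `L₄*` is representable by partitions of a set with 660 elements. The set is the group
`PSL(2, 11)`, and the elements of `L₄*` are sent to partitions into left cosets of subgroups: for four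
points `a, b, c, d` of the projective line over the field with 11 elements, the six coatoms of `L₄*`
go to the stabilisers `11 : 5` of `a, b, c, d` and to the two subgroups
`⟨T(a, b), T(c, d)⟩ ≅ A₅` and `⟨T(a, d), T(b, c)⟩ ≅ A₅`, where `T(x, y)`, of order 5, is the
stabiliser of `x` and `y`; the seven atoms go to the six groups `T(x, y)` and to the intersection `A₄`
of the two subgroups `A₅`.
-/

set_option autoImplicit false

namespace Pool.Agent.Results.MP_437e5a_co.WhitmanDualPiFourH17

/-- The lattice `L` is representable by partitions of `A`: there is an injective map from `L` to the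
partition lattice of `A` that preserves binary meets and joins. -/
def Representable (L : Type) [Lattice L] (A : Type) : Prop :=
  ∃ f : LatticeHom L (Setoid A), Function.Injective f

/-- The Whitman number `w(L)`: the least `n` such that `L` is representable by partitions of a set
with `n` elements. -/
noncomputable def whitmanNumber (L : Type) [Lattice L] : ℕ :=
  sInf {n : ℕ | Representable L (Fin n)}

/-- The dual `L₄*` of the partition lattice `Π₄` is representable by partitions of a set with `660`
elements; so `w(L₄*) ≤ 660 ≤ 2 ^ 1000`. -/
theorem result :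
    Representable (Setoid (Fin 4))ᵒᵈ (Fin 660) ∧
    whitmanNumber (Setoid (Fin 4))ᵒᵈ ≤ 660 ∧
    whitmanNumber (Setoid (Fin 4))ᵒᵈ ≤ 2 ^ 1000 := by
  have h : Representable (Setoid (Fin 4))ᵒᵈ (Fin 660) :=
    ⟨Pool.Agent.E8helper17.Whit.emb, Pool.Agent.E8helper17.Whit.emb_injective⟩
  have h2 : whitmanNumber (Setoid (Fin 4))ᵒᵈ ≤ 660 := Nat.sInf_le h
  have h3 : (660 : ℕ) ≤ 2 ^ 1000 :=
    le_trans (by norm_num : (660 : ℕ) ≤ 2 ^ 10) (Nat.pow_le_pow_right (by norm_num) (by norm_num))
  exact ⟨h, h2, h2.trans h3⟩

end Pool.Agent.Results.MP_437e5a_co.WhitmanDualPiFourH17
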